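import Pool.Agent.H58.FN.Targets

/-!
MP_6a7a6f_gt, row FM4: the difference of the phase cochains on small sets without heavy pyramids.
-/

namespace Pool.Agent.H31.FN

open Pool.Agent.H59 Pool.Agent.H48.FR Pool.Agent.H58.FL Pool.Agent.H30.FA Pool.Agent.H58.FM
open Pool.Agent.H58.FN

set_option maxRecDepth 100000 in
lemma sg4_ne : ∀ a b c d : Fin 4, a ≠ b → a ≠ c → a ≠ d → b ≠ c → b ≠ d → c ≠ d →
    sg4 a b c d ≠ 0 := by decide

set_option maxRecDepth 100000 in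
lemma sg4_dis : ∀ a b c d : Fin 4, sg4 a b c d ≠ 0 → a ≠ d ∧ b ≠ d ∧ c ≠ d := by decide

set_option maxRecDepth 100000 in
lemma sg4_cov : ∀ a b c d : Fin 4, sg4 a b c d ≠ 0 → ∀ e, e ≠ d → e = a ∨ e = b ∨ e = c := by
  decide

set_option maxRecDepth 100000 in
lemma sg4_id : ∀ a b c i : Fin 4, a ≠ i → b ≠ i → c ≠ i →
    3 * (∑ z, sg4 a b c z) = ∑ z, (sg4 z b c i - sg4 z a c i + sg4 z a b i) := by decide

lemma sg4_bij (g : Fin 4 → Fin 4) (hg : Function.Injective g) :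
    sg4 (g 0) (g 1) (g 2) (g 3) ≠ 0 := by
  apply sg4_ne <;> exact fun h => absurd (hg h) (by decide)

section

variable {E J X : Type} [NormedAddCommGroup E] [InnerProductSpace ℂ E] [Fintype J]
  {κ δ : ℝ} {x : J → E} {t : X → J → ℝ}

/-- Three heaviest points and a family. -/
lemma MM_vvv (σ : Sel κ x t δ) (f g h : X) (q : Fin 4 → J) :
    MM x (σ.vv f) (σ.vv g) (σ.vv h) q =
      (∑ i, mn (x (σ.v f)) (x (σ.v g)) (x (σ.v h)) (x (q i))) / 4 := by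
  unfold MM Sel.vv
  simp only [Finset.univ_unique, Finset.sum_singleton]
  norm_num

end

/-- FM4. -/
theorem pf_FM4 (hUMM : T_UMM) (hPRM : Pool.Agent.H58.FN.T_PRM) (hMLB : T_MLB) (hCLQ : T_CLQ) (hLB4 : T_LB4) :
    T_FM4 := by
  intro E J X _ _ _ κ δ x t σ S hne hK2 hnHP
  obtain ⟨c, H, -, hmn, hsel⟩ := hLB4 E J X κ δ x t σ S hne hK2 hnHP
  have hq : ∀ f ∈ S, ∀ i, σ.q f i ∈ H := fun f hf => (hsel f hf).1
  have hv : ∀ f ∈ S, σ.v f ∈ H := fun f hf => (hsel f hf).2.1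
  have hb : ∀ f ∈ S, Function.Bijective (c ∘ σ.q f) := fun f hf => (hsel f hf).2.2.1
  have hw : ∀ f ∈ S, ∀ i, ∀ j ∈ H, c j = c (σ.q f i) → t f j ≤ t f (σ.q f i) :=
    fun f hf => (hsel f hf).2.2.2
  have key : ∀ f ∈ S, ∀ g ∈ S, ∀ h ∈ S, UU x σ.vv f g h - UU x σ.q f g h =
      d1 (EE x σ.vv σ.q) f g h -
        (∑ i, mn (x (σ.v f)) (x (σ.v g)) (x (σ.v h)) (x (σ.q h i))) / 4 := by
    intro f hf g hg h hh
    have h1 := hPRM E J X 1 4 x σ.vv σ.q (by norm_num) (by norm_num) f g h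
    have h2 := (hMLB E J x c H hmn 1 1 (σ.vv f) (σ.vv g) (σ.q g) (σ.q h) (fun _ => hv f hf)
      (fun _ => hv g hg) (hq g hg) (hq h hh) (hb g hg) (hb h hh)).1
    have h3 := (hMLB E J x c H hmn 1 4 (σ.vv f) (σ.q f) (σ.q g) (σ.q h) (fun _ => hv f hf)
      (hq f hf) (hq g hg) (hq h hh) (hb g hg) (hb h hh)).1
    rw [h1, h2, h3, MM_vvv]
    ring
  refine ⟨?_, ?_, ?_⟩
  · intro f hf g hg h hh k hk
    rw [hUMM E J X 4 x σ.q (by norm_num) f g h k]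
    exact (hMLB E J x c H hmn 4 4 (σ.q f) (σ.q g) (σ.q h) (σ.q k) (hq f hf) (hq g hg) (hq h hh)
      (hq k hk) (hb h hh) (hb k hk)).1
  · intro hD f hf g hg h hh
    rw [key f hf g hg h hh]
    have h1 : ∀ i, mn (x (σ.v f)) (x (σ.v g)) (x (σ.v h)) (x (σ.q h i)) = 0 := by
      intro i
      by_contra hcon
      exact hD ⟨f, hf, g, hg, h, hh, h, hh, i, hcon⟩
    simp only [h1, Finset.sum_const_zero, zero_div, sub_zero]
  · intro hK1 hD f hf g hg h hh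
    obtain ⟨f₁, hf₁, g₁, hg₁, h₁, hh₁, k₁, hk₁, i₁, hD⟩ := hD
    have hC := hCLQ E J X κ δ x t σ S hK2.1
    have hδ := σ.d_pos
    obtain ⟨e, he⟩ : ∃ e, e = c (σ.q k₁ i₁) := ⟨_, rfl⟩
    rw [hmn _ (hv _ hf₁) _ (hv _ hg₁) _ (hv _ hh₁) _ (hq _ hk₁ i₁), ← he] at hD
    have hD' : sg4 (c (σ.v f₁)) (c (σ.v g₁)) (c (σ.v h₁)) e ≠ 0 := by exact_mod_cast hD
    -- the heaviest points do not have the label `e`
    have hA : ∀ u ∈ S, c (σ.v u) ≠ e := by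
      intro u hu hcon
      have h1 := hC.2.2.2.2.2 hK1 f₁ hf₁ g₁ hg₁ h₁ hh₁ u hu
      rw [hmn _ (hv _ hf₁) _ (hv _ hg₁) _ (hv _ hh₁) _ (hv _ hu), hcon] at h1
      exact hD h1
    -- the lightest point of the selected monopole has the label `e`
    have hB : ∀ u ∈ S, c (σ.q u (σ.l u)) = e := by
      intro u hu
      by_contra hcon
      -- a point of the monopole with a label which is not `e` is heavy
      have hheavy : ∀ i, c (σ.q u i) ≠ e → 24 * δ < t u (σ.q u i) := by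
        intro i hi
        have h1 : ∃ w ∈ S, c (σ.v w) = c (σ.q u i) := by
          rcases sg4_cov _ _ _ _ hD' _ hi with h | h | h
          · exact ⟨f₁, hf₁, h.symm⟩
          · exact ⟨g₁, hg₁, h.symm⟩
          · exact ⟨h₁, hh₁, h.symm⟩
        obtain ⟨w, hwS, hwc⟩ := h1
        have h2 := hw u hu i (σ.v w) (hv w hwS) hwc
        have h3 := σ.d_small w
        have h4 := hC.1 w hwS u hu (σ.v w)
        linarith
      have h1 := hheavy _ hcon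
      have h2 : ∀ i, 24 * δ < t u (σ.q u i) := fun i => h1.trans_le (σ.l_min u i)
      refine hK1.2 u hu ⟨σ.q u, ?_, h2⟩
      rw [hmn _ (hq u hu 0) _ (hq u hu 1) _ (hq u hu 2) _ (hq u hu 3)]
      exact_mod_cast sg4_bij (c ∘ σ.q u) (hb u hu).1
    -- sums over the labels
    have hsum : ∀ u ∈ S, ∀ F : Fin 4 → ℤ, ∑ i, (F (c (σ.q u i)) : ℝ) = ((∑ z, F z : ℤ) : ℝ) := by
      intro u hu F
      push_cast
      exact (hb u hu).sum_comp (fun z => ((F z : ℤ) : ℝ))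
    have hx1 : ∀ u ∈ S, ∀ w ∈ S, σ.x1 u w =
        -(1 / 12) * ((∑ z, sg4 z (c (σ.v u)) (c (σ.v w)) e : ℤ) : ℝ) := by
      intro u hu w hwS
      unfold Sel.x1
      rw [← hsum u hu fun z => sg4 z (c (σ.v u)) (c (σ.v w)) e]
      congr 1
      refine Finset.sum_congr rfl fun i _ => ?_
      rw [hmn _ (hq u hu i) _ (hv u hu) _ (hv w hwS) _ (hq u hu _), hB u hu]
    have hm : ∑ i, mn (x (σ.v f)) (x (σ.v g)) (x (σ.v h)) (x (σ.q h i)) =
        ((∑ z, sg4 (c (σ.v f)) (c (σ.v g)) (c (σ.v h)) z : ℤ) : ℝ) := by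
      rw [← hsum h hh fun z => sg4 (c (σ.v f)) (c (σ.v g)) (c (σ.v h)) z]
      refine Finset.sum_congr rfl fun i _ => ?_
      rw [hmn _ (hv f hf) _ (hv g hg) _ (hv h hh) _ (hq h hh i)]
    have hid := sg4_id (c (σ.v f)) (c (σ.v g)) (c (σ.v h)) e (hA f hf) (hA g hg) (hA h hh)
    have hid' : (3 : ℝ) * ((∑ z, sg4 (c (σ.v f)) (c (σ.v g)) (c (σ.v h)) z : ℤ) : ℝ) =
        ((∑ z, sg4 z (c (σ.v g)) (c (σ.v h)) e : ℤ) : ℝ) -
        ((∑ z, sg4 z (c (σ.v f)) (c (σ.v h)) e : ℤ) : ℝ) +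
        ((∑ z, sg4 z (c (σ.v f)) (c (σ.v g)) e : ℤ) : ℝ) := by
      rw [Finset.sum_add_distrib, Finset.sum_sub_distrib] at hid
      exact_mod_cast hid
    rw [key f hf g hg h hh, hm]
    have hd : d1 (fun f g => EE x σ.vv σ.q f g + σ.x1 f g) f g h =
        d1 (EE x σ.vv σ.q) f g h + (σ.x1 g h - σ.x1 f h + σ.x1 f g) := by
      unfold d1
      ring
    rw [hd, hx1 g hg h hh, hx1 f hf h hh, hx1 f hf g hg]
    linarith

end Pool.Agent.H31.FN
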